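import Mathlib

set_option autoImplicit false

namespace Pool.Agent.Results.MP_a2e3d9_lc.NoGoodSection

open Set Filter Topology

/-- There is a Polish space with its Borel structure and a Borel, countable-to-one, aperiodic,
well-founded self-map `f` such that no Borel set and no set with the Baire property is a
complete section for the orbit equivalence relation that is forward invariant and on which
`f` is finite-to-one. -/
theorem result :
    ∃ (X : Type) (_ : TopologicalSpace X) (_ : PolishSpace X) (_ : MeasurableSpace X)
      (_ : BorelSpace X) (f : X → X),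
      Measurable f ∧
      (∀ y : X, (f ⁻¹' {y}).Countable) ∧
      (∀ (x : X) (n : ℕ), 1 ≤ n → f^[n] x ≠ x) ∧
      (¬ ∃ x : ℕ → X, ∀ i, f (x (i + 1)) = x i) ∧
      ∀ B : Set X, (MeasurableSet B ∨ BaireMeasurableSet B) →
        ¬ ((∀ x : X, ∃ y ∈ B, ∃ m n : ℕ, f^[m] x = f^[n] y) ∧
          f '' B ⊆ B ∧
          ∀ y : X, (f ⁻¹' {y} ∩ B).Finite) := by
  classical
  let sh : (ℕ → ℕ) → (ℕ → ℕ) := fun k n => k (n + 1)
  let f : ℕ × (ℕ → ℕ) → ℕ × (ℕ → ℕ) := Prod.map (· + 1) sh
  have hsh : Continuous sh := continuous_pi fun n => continuous_apply (n + 1)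
  have hf : Continuous f := (continuous_of_discreteTopology).prodMap hsh
  have hsho : IsOpenMap sh := by
    refine IsOpenMap.of_sections fun x => ⟨fun y n => Nat.casesOn n (x 0) y, ?_, ?_, ?_⟩
    · refine Continuous.continuousAt (continuous_pi fun n => ?_)
      cases n with
      | zero => exact continuous_const
      | succ n => exact continuous_apply n
    · funext n
      cases n <;> rfl
    · intro y
      rfl
  have hfo : IsOpenMap f := IsOpenMap.prodMap (fun _ _ => isOpen_discrete _) hsho
  have hit : ∀ (n : ℕ) (x : ℕ × (ℕ → ℕ)), f^[n] x = (x.1 + n, fun j => x.2 (j + n)) := by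
    intro n
    induction n with
    | zero => intro x; rfl
    | succ n ih =>
      intro x
      rw [Function.iterate_succ_apply', ih]
      refine Prod.ext rfl ?_
      funext j
      simp only [f, sh, Prod.map_snd]
      rw [show j + 1 + n = j + (n + 1) by omega]
  refine ⟨ℕ × (ℕ → ℕ), inferInstance, inferInstance, inferInstance, inferInstance, f,
    hf.measurable, ?_, ?_, ?_, ?_⟩
  · intro y
    refine (countable_range (fun a : ℕ =>
      ((y.1 - 1, fun n => Nat.casesOn n a y.2) : ℕ × (ℕ → ℕ)))).mono ?_
    rintro ⟨i, k⟩ h
    have h' : f (i, k) = y := h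
    refine ⟨k 0, ?_⟩
    subst h'
    refine Prod.ext (by simp [f]) ?_
    funext n
    cases n <;> rfl
  · intro x n hn h
    rw [hit] at h
    have := congrArg Prod.fst h
    simp only at this
    omega
  · rintro ⟨x, hx⟩
    have : ∀ i, (x 0).1 = (x i).1 + i := by
      intro i
      induction i with
      | zero => rfl
      | succ i ih =>
        have := congrArg Prod.fst (hx i)
        simp only [f, Prod.map_fst] at this
        omega
    have := this ((x 0).1 + 1)
    omega
  · rintro B hB ⟨hsec, hinv, hfin⟩
    have hB' : BaireMeasurableSet B := hB.elim (fun h => h.baireMeasurableSet) id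
    have hinv' : ∀ n y, y ∈ B → f^[n] y ∈ B := by
      intro n
      induction n with
      | zero => intro y hy; exact hy
      | succ n ih =>
        intro y hy
        rw [Function.iterate_succ_apply']
        exact hinv ⟨_, ih y hy, rfl⟩
    have hfin' : ∀ n y, {x | x ∈ B ∧ f^[n] x = y}.Finite := by
      intro n
      induction n with
      | zero =>
        intro y
        exact (finite_singleton y).subset fun x hx => hx.2
      | succ n ih =>
        intro y
        refine ((ih y).biUnion fun z _ => hfin z).subset ?_
        rintro x ⟨hxB, hx⟩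
        rw [Function.iterate_succ_apply] at hx
        exact mem_biUnion (x := f x) ⟨hinv ⟨x, hxB, rfl⟩, hx⟩ ⟨rfl, hxB⟩
    obtain ⟨U, hU, hBU⟩ := hB'.residualEq_isOpen
    have hBU' : {x | x ∈ B ↔ x ∈ U} ∈ residual (ℕ × (ℕ → ℕ)) := by
      filter_upwards [hBU] with x hx
      exact Iff.of_eq hx
    rcases U.eq_empty_or_nonempty with rfl | ⟨⟨i, k⟩, hik⟩
    · have h1 : ∀ m : ℕ, {x | f^[m] x ∉ B} ∈ residual (ℕ × (ℕ → ℕ)) := by
        intro m
        have ho : IsOpenMap f^[m] := by
          induction m with
          | zero => exact IsOpenMap.id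
          | succ m ih => rw [Function.iterate_succ]; exact ih.comp hfo
        have := tendsto_residual_of_isOpenMap (hf.iterate m) ho hBU'
        rw [mem_map] at this
        filter_upwards [this] with x hx
        exact fun h => hx.1 h
      obtain ⟨x, hx⟩ := (dense_of_mem_residual (countable_iInter_mem.2 h1)).nonempty
      obtain ⟨y, hy, m, n, hmn⟩ := hsec x
      exact mem_iInter.1 hx m (by rw [hmn]; exact hinv' n y hy)
    · obtain ⟨l, hl⟩ : ∃ l : ℕ, ∀ k' : ℕ → ℕ, (∀ j < l, k' j = k j) → (i, k') ∈ U := by
        have h1 : IsOpen {k' : ℕ → ℕ | (i, k') ∈ U} :=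
          hU.preimage (continuous_const.prodMk continuous_id)
        obtain ⟨I, u, hu, hI⟩ := isOpen_pi_iff.1 h1 k hik
        obtain ⟨l, hl⟩ := I.bddAbove
        refine ⟨l + 1, fun k' hk' => hI fun j hj => ?_⟩
        rw [hk' j (Nat.lt_succ_of_le (hl hj))]
        exact (hu j hj).2
      let s : ℕ → ℕ × (ℕ → ℕ) → ℕ × (ℕ → ℕ) := fun a x =>
        (x.1, Function.update x.2 l (Equiv.swap 0 a (x.2 l)))
      have hs : ∀ a, Continuous (s a) := by
        intro a
        refine continuous_fst.prodMk (continuous_snd.update l ?_)
        exact continuous_of_discreteTopology.comp ((continuous_apply l).comp continuous_snd)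
      have hss : ∀ a x, s a (s a x) = x := by
        intro a x
        simp [s]
      have h1 : ∀ a : ℕ, {x | s a x ∈ B ↔ s a x ∈ U} ∈ residual (ℕ × (ℕ → ℕ)) := by
        intro a
        exact tendsto_residual_of_isOpenMap (hs a)
          (IsOpenMap.of_inverse (hs a) (hss a) (hss a)) hBU'
      let V : Set (ℕ × (ℕ → ℕ)) := {x | x.1 = i} ∩ ((⋂ j ∈ Finset.range l, {x | x.2 j = k j}) ∩
        {x | x.2 l = 0})
      have hc : ∀ j c, IsOpen {x : ℕ × (ℕ → ℕ) | x.2 j = c} := fun j c =>
        (isOpen_discrete ({c} : Set ℕ)).preimage
          (show Continuous fun x : ℕ × (ℕ → ℕ) => x.2 j by fun_prop)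
      have hV : IsOpen V :=
        ((isOpen_discrete {i}).preimage continuous_fst).inter
          ((isOpen_biInter_finset fun j _ => hc j (k j)).inter (hc l 0))
      have hVne : V.Nonempty := by
        refine ⟨(i, Function.update k l 0), rfl, ?_, by simp⟩
        simp only [mem_iInter, Finset.mem_range, mem_ofPred_eq]
        intro j hj
        rw [Function.update_of_ne hj.ne]
      obtain ⟨z, ⟨hz1, hz2, hz3⟩, hz⟩ :=
        (dense_of_mem_residual (countable_iInter_mem.2 h1)).inter_open_nonempty V hV hVne
      have hz3' : z.2 l = 0 := hz3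
      have hz1' : z.1 = i := hz1
      have hsB : ∀ a, s a z ∈ B := by
        intro a
        refine (mem_iInter.1 hz a).2 ?_
        simp only [s, hz1']
        refine hl _ fun j hj => ?_
        rw [Function.update_of_ne hj.ne]
        simp only [mem_iInter, Finset.mem_range, mem_ofPred_eq] at hz2
        exact hz2 j hj
      have hinj : Function.Injective fun a => s a z := by
        intro a b hab
        have := congrFun (congrArg Prod.snd hab) l
        simpa [s, hz3'] using this
      refine infinite_of_injective_forall_mem hinj (fun a => ?_) (hfin' (l + 1) (f^[l + 1] z))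
      refine ⟨hsB a, ?_⟩
      rw [hit, hit]
      refine Prod.ext rfl ?_
      funext j
      simp only [s]
      rw [Function.update_of_ne (by omega)]

end Pool.Agent.Results.MP_a2e3d9_lc.NoGoodSection
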